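import Pool.Agent.Helper84.PCF.Zd

set_option autoImplicit false

namespace Pool.Agent.Results.MP_f4c142_pr.TypicalClusters

open Finset Pool.Agent.Helper84.PCF Filter Topology
open scoped Classical

theorem box_step (d : ℕ) (hd : 1 ≤ d) (α : ℝ) (hα : 0 < α) (n : ℕ) (hn : 1 ≤ n) {c X : ℝ}
    (hc : 0 ≤ c) (h : X ≤ c * (d * (box d n).card - (edges (box d n)).card / (1 + 2 * α))) :
    X ≤ 2 * c * (d * (α + 1 / (2 * n)) * (n : ℝ) ^ d) := by
  refine h.trans ?_
  obtain ⟨m, rfl⟩ : ∃ m, n = m + 1 := ⟨n - 1, by omega⟩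
  have h1 : ((d * (m * (m + 1) ^ (d - 1)) : ℕ) : ℝ) ≤ (edges (box d (m + 1))).card := by
    exact_mod_cast card_edges_box d m
  push_cast at h1
  rw [card_box]
  have hpow : ((m : ℝ) + 1) ^ d = (m + 1) * (m + 1) ^ (d - 1) := by
    rw [← pow_succ']
    congr 1
    omega
  push_cast
  rw [hpow]
  set P : ℝ := ((m : ℝ) + 1) ^ (d - 1) with hP
  have hP0 : 0 ≤ P := by positivity
  have hm0 : (0 : ℝ) ≤ m := Nat.cast_nonneg m
  have hd0 : (0 : ℝ) ≤ d := Nat.cast_nonneg d
  have hα2 : (0 : ℝ) < 1 + 2 * α := by linarith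
  have h2 : d * ((m : ℝ) * P) / (1 + 2 * α) ≤ (edges (box d (m + 1))).card / (1 + 2 * α) :=
    div_le_div_of_nonneg_right h1 hα2.le
  have h3 : d * (((m : ℝ) + 1) * P) - d * ((m : ℝ) * P) / (1 + 2 * α) ≤
      d * P * (2 * α * (m + 1) + 1) := by
    have h4 : d * ((m : ℝ) * P) * (1 - 2 * α) ≤ d * ((m : ℝ) * P) / (1 + 2 * α) := by
      rw [le_div_iff₀ hα2]
      have h5 : (1 - 2 * α) * (1 + 2 * α) ≤ 1 := by nlinarith [sq_nonneg α]
      have h6 : 0 ≤ d * ((m : ℝ) * P) := by positivity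
      calc d * ((m : ℝ) * P) * (1 - 2 * α) * (1 + 2 * α) =
          d * ((m : ℝ) * P) * ((1 - 2 * α) * (1 + 2 * α)) := by ring
        _ ≤ d * ((m : ℝ) * P) * 1 := mul_le_mul_of_nonneg_left h5 h6
        _ = d * ((m : ℝ) * P) := mul_one _
    have h7 : 0 ≤ d * P * (2 * α) := by positivity
    nlinarith
  have h9 : d * (((m : ℝ) + 1) * P) - (edges (box d (m + 1))).card / (1 + 2 * α) ≤
      d * P * (2 * α * (m + 1) + 1) := by linarith
  refine (mul_le_mul_of_nonneg_left h9 hc).trans (le_of_eq ?_)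
  have hm1 : ((m : ℝ) + 1) ≠ 0 := by positivity
  field_simp

/-- **The clusters of percolation with constant freezing are large at small rate.**
Let `d ≥ 1`, `α > 0` and let `s` be a natural number.
(1) For every finite set `B` of points of `ℤ^d` the expected number of points of `B` whose cluster in
the final configuration of percolation with constant freezing on (the graph induced on) `B` has at
most `s` points is at most `(s ^ (1 / d) / d) (d |B| - |E(B)| / (1 + 2 α))`.
(2) For the boxes `{0, ..., n - 1} ^ d` it is at most `s ^ (1 / d) (2 α + 1 / n) n ^ d`.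
(3) If, for every nondecreasing sequence `B 0 ⊆ B 1 ⊆ ...` of cubes with union `ℤ^d`, the
probability that the cluster of the origin in the final configuration on `B n` has at most `s` points
tends to `t` (this is the probability that the cluster of the origin in the local limit, the process
on `ℤ^d`, has at most `s` points), then `t ≤ 2 α s ^ (1 / d)`. -/
theorem result (d : ℕ) (hd : 1 ≤ d) (α : ℝ) (hα : 0 < α) (s : ℕ) :
    (∀ B : Finset (Fin d → ℤ), pcf (edges B) α
        (fun O => ((univ.filter (fun x : {x // x ∈ B} => (cluster O x).card ≤ s)).card : ℝ)) ≤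
      (s : ℝ) ^ ((1 : ℝ) / d) / d * (d * B.card - (edges B).card / (1 + 2 * α))) ∧
    (∀ n : ℕ, 1 ≤ n → pcf (edges (box d n)) α
        (fun O => ((univ.filter (fun x : {x // x ∈ box d n} => (cluster O x).card ≤ s)).card : ℝ)) ≤
      (s : ℝ) ^ ((1 : ℝ) / d) * (2 * α + 1 / n) * (n : ℝ) ^ d) ∧
    (∀ t : ℝ, (∀ B : ℕ → Finset (Fin d → ℤ), (∀ n, IsCube (B n)) → Monotone B →
        (∀ x, ∃ n, x ∈ B n) →
        Tendsto (fun n => originSmall α s (B n)) atTop (𝓝 t)) →
      t ≤ 2 * α * (s : ℝ) ^ ((1 : ℝ) / d)) := by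
  have hd0 : (0 : ℝ) < d := by exact_mod_cast hd
  have hbox : ∀ n : ℕ, 1 ≤ n → pcf (edges (box d n)) α
        (fun O => ((univ.filter (fun x : {x // x ∈ box d n} => (cluster O x).card ≤ s)).card : ℝ)) ≤
      (s : ℝ) ^ ((1 : ℝ) / d) * (2 * α + 1 / n) * (n : ℝ) ^ d := by
    intro n hn
    have hn0 : (0 : ℝ) < n := by exact_mod_cast hn
    refine (box_step d hd α hα n hn (by positivity) (region3 hd (box d n) hα s)).trans (le_of_eq ?_)
    have h1 : 2 * ((s : ℝ) ^ ((1 : ℝ) / d) / d) * (d * (α + 1 / (2 * n)) * (n : ℝ) ^ d) =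
        (s : ℝ) ^ ((1 : ℝ) / d) * (d / d) * (2 * α + 2 / (2 * n)) * (n : ℝ) ^ d := by ring
    have h2 : (2 : ℝ) / (2 * n) = 1 / n := by
      rw [div_eq_div_iff (by positivity) (by positivity)]
      ring
    rw [h1, div_self hd0.ne', mul_one, h2]
  refine ⟨fun B => region3 hd B hα s, hbox, fun t ht => zd hα s _ (fun n hn => ?_) t ht⟩
  rw [sum_pr _ hα]
  exact hbox n hn

end Pool.Agent.Results.MP_f4c142_pr.TypicalClusters
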